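import Pool.Agent.MP_0e6a9f_ag.H68.Defs

set_option backward.isDefEq.respectTransparency false

open CategoryTheory Limits TensorProduct

noncomputable section
namespace FMD

section General

variable {K G R : Type} [Field K] [AddCommGroup G] [DecidableEq G] [CommRing R] [Algebra K R]
  {A : G → Submodule K R} [GradedAlgebra A] (I : HomogeneousIdeal A) {C : Type} (x : C → R)

lemma loc_exact_iff {M N P : Type} [AddCommGroup M] [Module R M] [AddCommGroup N] [Module R N]
    [AddCommGroup P] [Module R P] (f : M →ₗ[R] N) (g : N →ₗ[R] P) (r : R) :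
    (∀ z, locMap (le_refl (Submonoid.powers r)) g z = 0 →
      ∃ y, locMap (le_refl (Submonoid.powers r)) f y = z) ↔
    ∀ z, (∃ k : ℕ, r ^ k • g z = 0) → ∃ (k : ℕ) (y : M), f y = r ^ k • z := by
  constructor
  · rintro h z ⟨k, hk⟩
    obtain ⟨y, hy⟩ := h (LocalizedModule.mk z 1) (by
      rw [locMap_mk, ← LocalizedModule.zero_mk 1, LocalizedModule.mk_eq]
      exact ⟨⟨_, k, rfl⟩, by simpa [Submonoid.smul_def] using hk⟩)
    induction y using LocalizedModule.induction_on with | _ y s =>
    rw [locMap_mk, LocalizedModule.mk_eq] at hy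
    obtain ⟨⟨_, a, rfl⟩, hu⟩ := hy
    obtain ⟨_, b, rfl⟩ := s
    refine ⟨a + b, r ^ a • y, ?_⟩
    simpa [Submonoid.smul_def, pow_add, mul_smul] using hu
  · intro h z hz
    induction z using LocalizedModule.induction_on with | _ z s =>
    rw [locMap_mk, ← LocalizedModule.zero_mk 1, LocalizedModule.mk_eq] at hz
    obtain ⟨⟨_, a, rfl⟩, hu⟩ := hz
    obtain ⟨k, y, hy⟩ := h z ⟨a, by simpa [Submonoid.smul_def] using hu⟩
    refine ⟨LocalizedModule.mk y (s * ⟨_, k, rfl⟩), ?_⟩
    rw [locMap_mk, LocalizedModule.mk_eq]
    exact ⟨1, by simp [Submonoid.smul_def, hy, mul_smul]⟩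

/-- (N1) elementwise description of `Tors`. -/
theorem tors_iff (P : CochainComplex (GrMod A I) ℤ) :
    Tors I x ((HomotopyCategory.quotient _ _).obj P) ↔
      ∀ (c : C) (i j k : ℤ), i + 1 = j → j + 1 = k → ∀ z : (P.X j).obj.M, (P.d j k).hom.1 z = 0 →
        ∃ (m : ℕ) (y : (P.X i).obj.M), (P.d i j).hom.1 y = x c ^ m • z := by
  classical
  have h1 : Tors I x ((HomotopyCategory.quotient _ _).obj P) ↔
      (((loc I x).mapHomologicalComplex _).obj P).Acyclic :=
    HomotopyCategory.quotient_obj_mem_subcategoryAcyclic_iff_acyclic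
      (((loc I x).mapHomologicalComplex _).obj P)
  rw [h1]
  have h2 : ∀ i j k : ℤ, i + 1 = j → j + 1 = k →
      ((((loc I x).mapHomologicalComplex _).obj P).ExactAt j ↔
        ∀ c, ∀ z : (P.X j).obj.M, (P.d j k).hom.1 z = 0 →
          ∃ (m : ℕ) (y : (P.X i).obj.M), (P.d i j).hom.1 y = x c ^ m • z) := by
    intro i j k hi hk
    rw [HomologicalComplex.exactAt_iff' _ i j k (by simp [← hi]) (by simp [← hk]),
      ShortComplex.moduleCat_exact_iff]
    constructor
    · intro h c z hz
      refine (loc_exact_iff (P.d i j).hom.1 (P.d j k).hom.1 (x c)).1 (fun w hw => ?_) z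
        ⟨0, by simp [hz]⟩
      obtain ⟨y, hy⟩ := h (Pi.single c w) (funext fun c' => by
        change locMap le_rfl (P.d j k).hom.1 (Pi.single (M := fun c => LocalizedModule
          (Submonoid.powers (x c)) (P.X j).obj.M) c w c') = 0
        by_cases hc : c' = c
        · subst hc; simpa using hw
        · simp [Pi.single_eq_of_ne hc])
      exact ⟨y c, (congrFun hy c).trans (by simp)⟩
    · intro h w hw
      have := fun c => (loc_exact_iff (P.d i j).hom.1 (P.d j k).hom.1 (x c)).2 (by
        rintro z ⟨a, ha⟩
        obtain ⟨m, y, hy⟩ := h c (x c ^ a • z) (by rw [map_smul, ha])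
        exact ⟨m + a, y, by rw [hy, pow_add, mul_smul]⟩) (w c) (congrFun hw c)
      choose y hy using this
      exact ⟨y, funext hy⟩
  exact ⟨fun h c i j k hi hk => (h2 i j k hi hk).1 (h j) c,
    fun h j => (h2 (j - 1) j (j + 1) (by simp) rfl).2 fun c => h c _ _ _ (by simp) rfl⟩

end General

namespace MP

variable {K : Type} [Field K] {X Y : MP K}

instance : (tens (X := X) (Y := Y)).Linear K where
  map_smul {_ _} f c := NatTrans.ext (funext fun N =>
    (congrArg sumF.map (show tensMap (c • f.hom) (𝟙 N.obj) = c • tensMap f.hom (𝟙 _) from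
      tens_ext fun n p => by
        change n ⊗ₜ[X.S] (algebraMap K X.S c • f.hom.1 p) =
          algebraMap K (prod X Y).S c • n ⊗ₜ[X.S] f.hom.1 p
        rw [← smul_tmul, smul_tmul']
        congr 1
        change inl X Y (algebraMap K X.S c) • n = _
        congr 1
        exact (MvPolynomial.rename Sum.inl).commutes c)).trans (sumF.map_smul _ _))

instance (E : CochainComplex (prod X Y).Gr ℤ) : (tensCx E).Linear K where
  map_smul f c := by ext n : 1; simp [tensCx]

instance : (sec (X := X) (Y := Y)).Linear K where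
  map_smul {_ _} f c := NatTrans.ext (funext fun T =>
    (congrArg sumF.map (show secMap le_rfl (c • f.hom) = c • secMap (le_refl T.unop) f.hom from
      sec_ext fun n s => by
        change locMap _ (algebraMap K (prod X Y).S c • f.hom.1) _ =
          inr X Y (algebraMap K Y.S c) • locMap _ f.hom.1 _
        rw [show inr X Y (algebraMap K Y.S c) = algebraMap K _ c from
          (MvPolynomial.rename Sum.inr).commutes c]
        simp [locMap])).trans (sumF.map_smul _ _))

instance {C B : Type*} {J : Type} [Category C] [Category B] [HasFiniteProducts C] [Preadditive B]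
    [Linear K B] [HasProducts.{0} B] (U : J → C) : (cechComplexFunctor (A := B) U).Linear K where
  map_smul f c := by
    ext n : 1
    exact Pi.hom_ext _ _ fun i => by simp [cechComplexFunctor]

instance {B : Type*} [Category B] [Preadditive B] [Linear K B] [HasZeroObject B] :
    (ComplexShape.embeddingUpNat.extendFunctor B).Linear K where
  map_smul f c := by
    ext n : 1
    by_cases h : ∃ i, ComplexShape.embeddingUpNat.f i = n
    · obtain ⟨i, hi⟩ := h
      simp [HomologicalComplex.extendMap_f _ _ hi]
    · exact (HomologicalComplex.isZero_extend_X _ _ _ fun i hi => h ⟨i, hi⟩).eq_of_src _ _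

instance : (push (X := X) (Y := Y)).Linear K := by
  unfold push
  infer_instance

end MP

end FMD
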