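import Pool.Agent.MP_0e6a9f_ag.H68.Gr

set_option backward.isDefEq.respectTransparency false

open CategoryTheory Limits

noncomputable section
namespace FMD

section Abstract

variable {T T' : Type 1} [Category.{1} T] [Category.{1} T']

/-- `P` is an admissible subcategory of `B`. -/
structure AdmG (B P : ObjectProperty T) : Prop where
  le : P ≤ B
  iso : P.IsClosedUnderIsomorphisms
  left : (ObjectProperty.ιOfLE le).IsRightAdjoint
  right : (ObjectProperty.ιOfLE le).IsLeftAdjoint

/-- `F ∘ q ≅ q' ∘ Φ` on the objects that satisfy `p` and that `q` sends into `P`. -/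
def Agree {B B' : Type 1} [Category.{0} B] [Category.{0} B'] (q : B ⥤ T) (q' : B' ⥤ T')
    (p : ObjectProperty B) (Φ : B ⥤ B') {P : ObjectProperty T} {P' : ObjectProperty T'}
    (F : P.FullSubcategory ⥤ P'.FullSubcategory) : Prop :=
  Nonempty (P.lift (ObjectProperty.ι (fun Z => p Z ∧ P (q.obj Z)) ⋙ q) (fun Z => Z.property.2) ⋙
    F ⋙ P'.ι ≅ ObjectProperty.ι _ ⋙ Φ ⋙ q')

variable (K : Type) [Field K]
  [HasZeroObject T] [HasShift T ℤ] [Preadditive T] [∀ n : ℤ, (shiftFunctor T n).Additive]
  [Pretriangulated T] [Linear K T]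
  [HasZeroObject T'] [HasShift T' ℤ] [Preadditive T'] [∀ n : ℤ, (shiftFunctor T' n).Additive]
  [Pretriangulated T'] [Linear K T']

/-- `F` is a `K`-linear exact equivalence. -/
def ExEq {U U' : Type 1} [Category.{1} U] [Category.{1} U']
    [HasZeroObject U] [HasShift U ℤ] [Preadditive U] [∀ n : ℤ, (shiftFunctor U n).Additive]
    [Pretriangulated U] [Linear K U]
    [HasZeroObject U'] [HasShift U' ℤ] [Preadditive U'] [∀ n : ℤ, (shiftFunctor U' n).Additive]
    [Pretriangulated U'] [Linear K U'] : Prop :=
  ∃ (F : U ⥤ U') (_ : F.CommShift ℤ), F.IsEquivalence ∧ F.IsTriangulated ∧ F.Linear K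

/-- Two triangulated subcategories with a `K`-linear exact equivalence between them. -/
def TriEq (P : ObjectProperty T) (P' : ObjectProperty T') : Prop :=
  ∃ (_ : P.IsTriangulated) (_ : P'.IsTriangulated),
    ExEq K (U := P.FullSubcategory) (U' := P'.FullSubcategory)

end Abstract

section Verdier

variable {T T' : Type 1} [Category.{0} T] [Category.{0} T'] (K : Type) [Field K]
  [HasZeroObject T] [HasShift T ℤ] [Preadditive T] [∀ n : ℤ, (shiftFunctor T n).Additive]
  [Pretriangulated T] [IsTriangulated T] [Linear K T]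
  [HasZeroObject T'] [HasShift T' ℤ] [Preadditive T'] [∀ n : ℤ, (shiftFunctor T' n).Additive]
  [Pretriangulated T'] [IsTriangulated T'] [Linear K T']
  (N : ObjectProperty T) [N.IsTriangulated] (N' : ObjectProperty T') [N'.IsTriangulated]

/-- `TriEq` in Verdier quotients. -/
def TriEqV (P : ObjectProperty N.trW.Localization) (P' : ObjectProperty N'.trW.Localization) :
    Prop := TriEq K P P'

end Verdier

section Complexes

variable {C C' B B' : Type 1} [Category.{0} C] [Preadditive C] [Category.{0} C'] [Preadditive C']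

variable (C) in
abbrev CxG := CochainComplex C ℤ

variable (C) in
abbrev catCxG : Category.{0} (CxG C) := HomologicalComplex.instCategory

variable (C) in
abbrev BinG : Prop := HasBinaryBiproducts C

/-- Bounded complexes. -/
def Bdd (P : CochainComplex C ℤ) : Prop := {n | ¬ IsZero (P.X n)}.Finite

/-- Bounded complexes whose terms satisfy `p`. -/
def BddOf (p : ObjectProperty C) (P : CxG C) : Prop := Bdd P ∧ ∀ n, p (P.X n)

/-- Apply an additive functor to complexes termwise and take the total complex. -/
def tot {E : Type*} [Category E] [Preadditive E] [HasCoproducts.{0} C]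
    (F : E ⥤ CochainComplex C ℤ) [F.Additive] : CochainComplex E ℤ ⥤ CochainComplex C ℤ :=
  F.mapHomologicalComplex (.up ℤ) ⋙ HomologicalComplex₂.totalFunctor _ _ _ (.up ℤ)

variable [Category.{0} B] [Abelian B] (F : C ⥤ B) [F.Additive]
  [Category.{0} B'] [Abelian B'] (F' : C' ⥤ B') [F'.Additive]

/-- Complexes that `F` makes acyclic. -/
abbrev TorsG : ObjectProperty (HomotopyCategory C (.up ℤ)) :=
  (HomotopyCategory.subcategoryAcyclic B).inverseImage (F.mapHomotopyCategory _)

variable [HasZeroObject C] [HasBinaryBiproducts C] [HasZeroObject C'] [HasBinaryBiproducts C']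

abbrev WG : MorphismProperty (HomotopyCategory C (.up ℤ)) := (TorsG F).trW

/-- The Verdier quotient `K(C) / TorsG F`. -/
abbrev VQ := (WG F).Localization

instance catD : Category.{1} (VQ F) := (WG F).instCategoryLocalization

abbrev QG : CochainComplex C ℤ ⥤ VQ F := HomotopyCategory.quotient _ _ ⋙ (WG F).Q

/-- Objects isomorphic to bounded complexes whose terms satisfy `p`. -/
def DbG (p : ObjectProperty C) : ObjectProperty (VQ F) := fun Y =>
  ∃ P, Bdd P ∧ (∀ n, p (P.X n)) ∧ Nonempty ((QG F).obj P ≅ Y)

instance triTors : (TorsG F).IsTriangulated := inferInstance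

/-- `TriEq` in the quotients `VQ F`, `VQ F'`. -/
def TriEqD (K : Type) [Field K] [Linear K C] [Linear K C'] (P : ObjectProperty (VQ F))
    (P' : ObjectProperty (VQ F')) : Prop := TriEqV K (TorsG F) (TorsG F') P P'

end Complexes

section Loc

variable {R : Type} [CommRing R] {C : Type} (x : C → R)

/-- The map `M[T⁻¹] → N[T'⁻¹]` induced by `f : M → N` for `T ≤ T'`. -/
def locMap {M N : Type} [AddCommGroup M] [Module R M] [AddCommGroup N] [Module R N]
    {T T' : Submonoid R} (h : T ≤ T') (f : M →ₗ[R] N) :
    LocalizedModule T M →ₗ[R] LocalizedModule T' N :=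
  LocalizedModule.liftOfLE T T' h ∘ₗ
    IsLocalizedModule.map T (LocalizedModule.mkLinearMap T M) (LocalizedModule.mkLinearMap T N) f

@[simp] lemma locMap_mk {M N : Type} [AddCommGroup M] [Module R M] [AddCommGroup N] [Module R N]
    {T T' : Submonoid R} (h : T ≤ T') (f : M →ₗ[R] N) (m : M) (s : T) :
    locMap h f (LocalizedModule.mk m s) = LocalizedModule.mk (f m) (⟨s, h s.2⟩ : T') := by
  simp [locMap, IsLocalizedModule.mk_eq_mk']

lemma loc_ext {M N : Type} [AddCommGroup M] [Module R M] [AddCommGroup N] [Module R N]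
    {T : Submonoid R} {f g : LocalizedModule T M →ₗ[R] N}
    (h : ∀ m s, f (LocalizedModule.mk m s) = g (LocalizedModule.mk m s)) : f = g :=
  LinearMap.ext fun z => LocalizedModule.induction_on h z

/-- `∏ c, M[1 / x c]`. -/
abbrev locObj (M : ModuleCat.{0} R) : ModuleCat.{0} R :=
  ModuleCat.of R (∀ c, LocalizedModule (.powers (x c)) M)

abbrev locHom {M N : ModuleCat.{0} R} (f : M ⟶ N) : locObj x M ⟶ locObj x N :=
  ModuleCat.ofHom (LinearMap.piMap fun _ => locMap le_rfl f.hom)

theorem locHom_id (M : ModuleCat.{0} R) : locHom x (𝟙 M) = 𝟙 (locObj x M) :=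
  ModuleCat.hom_ext (LinearMap.ext fun z => funext fun c =>
    congr($(loc_ext (f := locMap le_rfl (.id : M →ₗ[R] _)) (g := .id) (by simp)) (z c)))

theorem locHom_comp {M N P : ModuleCat.{0} R} (f : M ⟶ N) (g : N ⟶ P) :
    locHom x (f ≫ g) = locHom x f ≫ locHom x g :=
  ModuleCat.hom_ext (LinearMap.ext fun z => funext fun c =>
    congr($(loc_ext (f := locMap le_rfl (g.hom ∘ₗ f.hom))
      (g := locMap le_rfl g.hom ∘ₗ locMap le_rfl f.hom) (by simp)) (z c)))

/-- `M ↦ ∏ c, M[1 / x c]`. -/
def locAll : ModuleCat.{0} R ⥤ ModuleCat.{0} R where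
  obj := locObj x
  map := locHom x
  map_id := locHom_id x
  map_comp := locHom_comp x

instance : (locAll x).Additive where
  map_add {_ _ f g} := by
    refine ModuleCat.hom_ext (LinearMap.ext fun z => funext fun c => ?_)
    have : locMap le_rfl (f.hom + g.hom) = locMap (le_refl (Submonoid.powers (x c))) f.hom +
      locMap le_rfl g.hom := by simp [locMap, LinearMap.comp_add]
    exact LinearMap.congr_fun this (z c)

/-- `M[1 / y]` is flat over `S`. -/
def FlatAt {S : Type} [CommRing S] (y : S) (M : Type) [AddCommGroup M] [Module S M] : Prop :=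
  Module.Flat S (LocalizedModule (.powers y) M)

/-- An `R`-module killed by `J` as an `R/J`-module. -/
abbrev quotMod (J : Ideal R) (M : Type) [AddCommGroup M] [Module R M]
    (h : ∀ r ∈ J, ∀ m : M, r • m = 0) : Module (R ⧸ J) M :=
  Module.IsTorsionBySet.module (I := J) fun {m r} => h r r.2 m

abbrev FlatQ (J : Ideal R) (M : Type) [AddCommGroup M] [Module R M]
    (h : ∀ r ∈ J, ∀ m : M, r • m = 0) : Prop :=
  ∀ c, @FlatAt (R ⧸ J) _ (Ideal.Quotient.mk J (x c)) M _ (quotMod J M h)

variable (R) in
abbrev FinM (M : Type) [AddCommGroup M] [Module R M] : Prop := Module.Finite R M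

end Loc

section General

attribute [-instance] ObjectProperty.instHasZeroMorphismsFullSubcategory

variable {K G R : Type} [Field K] [AddCommGroup G] [DecidableEq G] [CommRing R] [Algebra K R]
  {A : Grd K G R} [GA A] (I : HId A) {C : Type} (x : C → R)

/-- The underlying `R`-module. -/
def fgt : Pre A I ⥤ ModuleCat.{0} R := famFgt R Pre.M Pre.gr

instance : (fgt I).Additive := ⟨rfl⟩

/-- `M ↦ ∏ c, M[1 / x c]`: the sections of the sheaf of `M` and its twists on all charts. -/
def loc : GrMod A I ⥤ ModuleCat.{0} R := incl A I ⋙ fgt I ⋙ locAll x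

instance addLoc : (loc I x).Additive := by
  unfold loc
  infer_instance

/-- Complexes of graded modules that become acyclic on every chart. -/
abbrev Tors := TorsG (loc I x)

/-- The derived category of quasi-coherent sheaves: the Verdier quotient `K(GrMod) / Tors`. -/
abbrev D := VQ (loc I x)

/-- The localization functor from complexes of graded modules. -/
abbrev Q := QG (loc I x)

/-- Finitely generated graded modules. -/
abbrev IsFin (M : GrMod A I) : Prop := FinM R M.obj.M

/-- `D^b(coh)`: objects isomorphic to bounded complexes of finitely generated graded modules. -/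
def Db : ObjectProperty (D I x) := DbG (loc I x) (IsFin I)

instance modQ (M : Pre A I) : Module (R ⧸ I.toIdeal) M.M := quotMod I.toIdeal M.M M.kill

variable {I} in
/-- `M[1 / x c]` is flat over `R / I` for all `c`. -/
abbrev Ok.Flat {M : Type} [AddCommGroup M] [Module R M] {gr : G → AddSubgroup M} (h : Ok I gr) :
    Prop := FlatQ x (idl I) M h.kill

/-- Graded modules whose sheaf is flat. -/
abbrev IsFlat (M : GrMod A I) : Prop := M.obj.ok.Flat x

/-- Bounded complexes of flat quasi-coherent sheaves. -/
def FlatCx (P : CxG (GrMod A I)) : Prop := BddOf (IsFlat I x) P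

/-- An admissible subcategory of `D^b(coh)`. -/
abbrev Adm (P : ObjectProperty (D I x)) : Prop := AdmG (Db I x) P

end General

end FMD
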