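import Pool.Agent.MP_0e6a9f_ag.H68.Defs

open CategoryTheory

namespace FMD

/-- The working form of the final statement; `Goal.final` gives the hand-in's statement. -/
def Goal : Prop :=
  ∃ (K : Type) (_ : Field K) (X Y : MP K) (D₁ : ObjectProperty (D X.I X.x))
    (D₂ : ObjectProperty (D Y.I Y.x)) (_ : D₁.IsTriangulated) (_ : D₂.IsTriangulated),
    X.SmoothVar ∧ Y.SmoothVar ∧ Adm _ _ D₁ ∧ Adm _ _ D₂ ∧
    (∃ (F : D₁.FullSubcategory ⥤ D₂.FullSubcategory) (_ : F.CommShift ℤ),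
      F.IsEquivalence ∧ F.IsTriangulated ∧ F.Linear K) ∧
    ∀ F : D₁.FullSubcategory ⥤ D₂.FullSubcategory, F.IsEquivalence → ¬ MP.IsFM F

theorem Goal.final (h : Goal) :
    ∃ (K : Type) (_ : Field K) (X Y : MP K) (P : X.Sub) (P' : Y.Sub),
      X.SmoothVar ∧ Y.SmoothVar ∧ X.Admissible P ∧ Y.Admissible P' ∧ MP.Equivalent P P' ∧
      ∀ F : P.FullSubcategory ⥤ P'.FullSubcategory, F.IsEquivalence → ¬ MP.FourierMukai F := by
  obtain ⟨K, _, X, Y, P, P', t, t', h1, h2, h3, h4, h5, h6⟩ := h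
  exact ⟨K, _, X, Y, P, P', h1, h2, h3, h4, ⟨t, t', h5⟩, fun F hF h => h6 F hF h.isFM⟩

end FMD
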