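import Pool.Agent.MP_0e6a9f_ag.H68.St

/-! Working forms of the Fourier-Mukai functor (with the explicit coreflection `sumF`), and the
comparison with the forms used in the statement. -/

set_option backward.isDefEq.respectTransparency false

open CategoryTheory Limits MvPolynomial TensorProduct

noncomputable section
namespace FMD

section Iso

variable {C₁ C₂ C₃ : Type 1} [Category.{0} C₁] [Category.{0} C₂] [Category.{0} C₃]

def biWhIso {B₁ B₂ : Type 1} [Category.{0} B₁] [Category.{0} B₂] (T : B₁ ⥤ B₂ ⥤ B₂) (i : C₁ ⥤ B₁)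
    (j : C₂ ⥤ B₂) {c c' : B₂ ⥤ C₂} (e : c ≅ c') : biWh T i j c ≅ biWh T i j c' :=
  Functor.isoWhiskerLeft i (Functor.isoWhiskerLeft T (Functor.isoWhiskerLeft _
    ((Functor.whiskeringRight _ _ _).mapIso e)))

def preWhIso {B₁ B₃ : Type 1} {U : Type} [Category.{0} B₁] [Category.{0} B₃] [Category.{0} U]
    (T : B₁ ⥤ U ⥤ B₃) (i : C₁ ⥤ B₁) {c c' : B₃ ⥤ C₃} (e : c ≅ c') : preWh T i c ≅ preWh T i c' :=
  Functor.isoWhiskerLeft i (Functor.isoWhiskerLeft T ((Functor.whiskeringRight _ _ _).mapIso e))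

variable [Preadditive C₁] [Preadditive C₂] [Preadditive C₃]

def biCxIso {T T' : C₁ ⥤ C₂ ⥤ C₂} [∀ P, (T.obj P).Additive] [∀ P, (T'.obj P).Additive]
    (e : T ≅ T') (E : CochainComplex C₂ ℤ) : biCx T E ≅ biCx T' E :=
  NatIso.ofComponents (fun P => (NatIso.mapHomologicalComplex (e.app P) _).app E) fun f => by
    ext n
    exact congr($(e.hom.naturality f).app (E.X n))

def totIso [HasCoproducts.{0} C₂] {F F' : C₁ ⥤ CochainComplex C₂ ℤ} [F.Additive] [F'.Additive]
    (e : F ≅ F') : tot F ≅ tot F' :=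
  Functor.isoWhiskerRight (NatIso.mapHomologicalComplex e _) _

end Iso

namespace MP

variable {K : Type} [Field K] (X Y : MP K)

/-- The coordinate ring of the chart. -/
abbrev O (c : X.Chart) :=
  X.S ⧸ (X.I.toIdeal ⊔ Ideal.span (Set.range fun j => MvPolynomial.X (c.1 j) - 1))

lemma smoothVar_iff : X.SmoothVar ↔ X.I.toIdeal.IsPrime ∧ (∀ c, Algebra.Smooth K (X.O c)) ∧
    ∃ c, Nonempty (X.O c →ₐ[K] K) := Iff.rfl

instance (N : Pre _ (prod X Y).I) : Module X.S N.M := resM (prod X Y).S X.S N.M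

instance (N : Pre _ (prod X Y).I) : IsScalarTower X.S (prod X Y).S N.M :=
  towerM (prod X Y).S X.S N.M

variable {X Y}

/-- `N ⊗ p₁^* P = N ⊗_(S_X) P` with its grading. -/
abbrev tensObj (P : Pre _ X.I) (N : Pre _ (prod X Y).I) : Pre _ (prod X Y).I :=
  tObj (fun a => deg X Y a 0) P N

/-- `g ⊗ f`. -/
abbrev tensMap {P P' : Pre _ X.I} {N N' : Pre _ (prod X Y).I} (f : P ⟶ P') (g : N ⟶ N') :
    tensObj P N ⟶ tensObj P' N' := tMap _ f g

lemma tensObj_M (P : Pre _ X.I) (N : Pre _ (prod X Y).I) :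
    (tensObj P N).M = (N.M ⊗[X.S] P.M) := rfl

lemma tensObj_gr (P : Pre _ X.I) (N : Pre _ (prod X Y).I) (d) : (tensObj P N).gr d =
    AddSubgroup.closure {z : N.M ⊗[X.S] P.M | ∃ e a, ∃ n ∈ N.gr e, ∃ p ∈ P.gr a,
      e + deg X Y a 0 = d ∧ n ⊗ₜ p = z} := rfl

lemma tensMap_val {P P' : Pre _ X.I} {N N' : Pre _ (prod X Y).I} (f : P ⟶ P') (g : N ⟶ N') :
    (tensMap f g).1 = AlgebraTensorModule.map g.1 f.1 := rfl

lemma tens_ext {P : Pre _ X.I} {N N' : Pre _ (prod X Y).I} {f g : tensObj P N ⟶ N'}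
    (h : ∀ n p, f.1 (n ⊗ₜ p) = g.1 (n ⊗ₜ p)) : f = g := tObj_ext _ h

lemma tensMap_id (P : Pre _ X.I) (N : Pre _ (prod X Y).I) : tensMap (𝟙 P) (𝟙 N) = 𝟙 _ :=
  tens_ext fun _ _ => rfl

lemma tensMap_comp {P P' P'' : Pre _ X.I} {N N' N'' : Pre _ (prod X Y).I} (f : P ⟶ P')
    (f' : P' ⟶ P'') (g : N ⟶ N') (g' : N' ⟶ N'') :
    tensMap f g ≫ tensMap f' g' = tensMap (f ≫ f') (g ≫ g') := tens_ext fun _ _ => rfl

/-- The bifunctor `(P, N) ↦ N ⊗ p₁^* P`. -/
def tens : X.Gr ⥤ (prod X Y).Gr ⥤ (prod X Y).Gr where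
  obj P :=
    { obj N := sumF.obj (tensObj P.obj N.obj)
      map g := sumF.map (tensMap (𝟙 _) g.hom)
      map_id _ := (congrArg sumF.map (tensMap_id ..)).trans (sumF.map_id _)
      map_comp _ _ := by rw [← Functor.map_comp, tensMap_comp, Category.comp_id]; rfl }
  map f :=
    { app N := sumF.map (tensMap f.hom (𝟙 N.obj))
      naturality _ _ _ := by
        simp only [← Functor.map_comp, tensMap_comp, Category.comp_id, Category.id_comp] }
  map_id _ := NatTrans.ext (funext fun _ =>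
    (congrArg sumF.map (tensMap_id ..)).trans (sumF.map_id _))
  map_comp _ _ := NatTrans.ext (funext fun _ => by
    simp only [NatTrans.comp_app, ← Functor.map_comp, tensMap_comp, Category.comp_id]; rfl)

instance (P : X.Gr) : (tens (Y := Y).obj P).Additive where
  map_add {_ _ f g} := (congrArg sumF.map (show tensMap (𝟙 _) (f.hom + g.hom) =
    tensMap (𝟙 _) f.hom + tensMap (𝟙 _) g.hom from tens_ext fun _ _ => add_tmul ..)).trans
      sumF.map_add

instance : (tens (X := X) (Y := Y)).Additive where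
  map_add {_ _ f g} := NatTrans.ext (funext fun N =>
    (congrArg sumF.map (show tensMap (f.hom + g.hom) (𝟙 N.obj) = tensMap f.hom (𝟙 _) +
      tensMap g.hom (𝟙 _) from tens_ext fun _ _ => tmul_add ..)).trans sumF.map_add)

/-- `P ↦ E ⊗ p₁^* P` for a complex `E` and a module `P`. -/
def tensCx (E : CochainComplex (prod X Y).Gr ℤ) : X.Gr ⥤ CochainComplex (prod X Y).Gr ℤ where
  obj P := ((tens.obj P).mapHomologicalComplex _).obj E
  map f := (NatTrans.mapHomologicalComplex (tens.map f) _).app E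

instance (E : CochainComplex (prod X Y).Gr ℤ) : (tensCx E).Additive where
  map_add := by intros; ext; simp [tensCx]

/-- The graded `S_Y`-module `N[T⁻¹]_(0,*)`: for `T` generated by `x c`, `c ∈ J`, this is
`p₂_*` of the restriction of `N` to `U_J × Y`. -/
abbrev secObj (T : Submonoid (prod X Y).S) (N : Pre _ (prod X Y).I) : Pre _ Y.I :=
  sObj (ovr X Y) N (Opposite.op T)

lemma secObj_M (T : Submonoid (prod X Y).S) (N : Pre _ (prod X Y).I) :
    (secObj T N).M = LocalizedModule T N.M := rfl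

lemma secObj_gr (T : Submonoid (prod X Y).S) (N : Pre _ (prod X Y).I) (b) : (secObj T N).gr b =
    AddSubgroup.closure {z : LocalizedModule T N.M | ∃ a, ∃ n ∈ N.gr (deg X Y a b), ∃ s : T,
      s.1 ∈ grading K (prod X Y).blk (deg X Y a 0) ∧ LocalizedModule.mk n s = z} := rfl

/-- Restriction to a smaller open set and functoriality in `N`. -/
def secMap {T T' : Submonoid (prod X Y).S} (h : T ≤ T') {N N' : Pre _ (prod X Y).I}
    (g : N ⟶ N') : secObj T N ⟶ secObj T' N' := secHom _ (inr X Y) (deg X Y) h g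

lemma secMap_apply {T T' : Submonoid (prod X Y).S} (h : T ≤ T') {N N' : Pre _ (prod X Y).I}
    (g : N ⟶ N') (m : LocalizedModule T N.M) : (secMap h g).1 m = locMap h g.1 m := rfl

lemma sec_ext {T : Submonoid (prod X Y).S} {N : Pre _ (prod X Y).I} {P : Pre _ Y.I}
    {f g : secObj T N ⟶ P}
    (h : ∀ n s, f.1 (LocalizedModule.mk n s) = g.1 (LocalizedModule.mk n s)) : f = g :=
  Pre.hom_ext fun m => LocalizedModule.induction_on h m

lemma secMap_id (T : Submonoid (prod X Y).S) (N : Pre _ (prod X Y).I) :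
    secMap (le_refl T) (𝟙 N) = 𝟙 _ := sec_ext fun _ _ => locMap_mk ..

lemma secMap_comp {T T' T'' : Submonoid (prod X Y).S} (h : T ≤ T') (h' : T' ≤ T'')
    {N N' N'' : Pre _ (prod X Y).I} (g : N ⟶ N') (g' : N' ⟶ N'') :
    secMap h g ≫ secMap h' g' = secMap (h.trans h') (g ≫ g') :=
  sec_ext fun _ _ => (congrArg (locMap h' g'.1) (locMap_mk ..)).trans
    ((locMap_mk ..).trans (locMap_mk (h.trans h') (g ≫ g').1 _ _).symm)

/-- The presheaf `T ↦ N[T⁻¹]_(0,*)`. -/
def sec : (prod X Y).Gr ⥤ (Submonoid (prod X Y).S)ᵒᵈᵒᵖ ⥤ Y.Gr where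
  obj N :=
    { obj T := sumF.obj (secObj T.unop N.obj)
      map h := sumF.map (secMap h.unop.le (𝟙 _))
      map_id _ := (congrArg sumF.map (secMap_id ..)).trans (sumF.map_id _)
      map_comp _ _ := by rw [← Functor.map_comp, secMap_comp, Category.comp_id] }
  map g :=
    { app T := sumF.map (secMap le_rfl g.hom)
      naturality _ _ _ := by
        simp only [← Functor.map_comp, secMap_comp, Category.comp_id, Category.id_comp] }
  map_id _ := NatTrans.ext (funext fun _ => (congrArg sumF.map (secMap_id ..)).trans (sumF.map_id _))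
  map_comp _ _ := NatTrans.ext (funext fun _ => by
    simp only [NatTrans.comp_app, ← Functor.map_comp, secMap_comp]; rfl)

/-- `R p₂_*` of a module: the Cech complex of the cover `U_c × Y` of `X × Y`. -/
def push : (prod X Y).Gr ⥤ CochainComplex Y.Gr ℤ :=
  sec ⋙ cechComplexFunctor (fun c : X.Chart =>
    OrderDual.toDual (Submonoid.powers (inl X Y (X.x c)))) ⋙
    ComplexShape.embeddingUpNat.extendFunctor _

instance : (sec (X := X) (Y := Y)).Additive where
  map_add {_ _ f g} := NatTrans.ext (funext fun T =>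
    (congrArg sumF.map (show secMap le_rfl (f.hom + g.hom) = secMap le_rfl f.hom +
      secMap (le_refl T.unop) g.hom from sec_ext fun n s => by
        change locMap _ (f.hom.1 + g.hom.1) _ = locMap _ f.hom.1 _ + locMap _ g.hom.1 _
        simp [locMap])).trans sumF.map_add)

instance : (push (X := X) (Y := Y)).Additive := by
  unfold push
  infer_instance

/-- `P ↦ R p₂_* (E ⊗ p₁^* P)` on complexes. -/
def phi (E : CochainComplex (prod X Y).Gr ℤ) : CochainComplex X.Gr ℤ ⥤ CochainComplex Y.Gr ℤ :=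
  tot (tensCx E) ⋙ tot push

/-- `F : D₁ ⥤ D₂` is of Fourier-Mukai type: for some complex `E` on `X × Y`,
`F(P) ≅ R p₂_* (E ⊗ p₁^* P)` naturally in bounded flat complexes `P` lying in `D₁`. -/
def IsFM {D₁ : ObjectProperty (D X.I X.x)} {D₂ : ObjectProperty (D Y.I Y.x)}
    (F : D₁.FullSubcategory ⥤ D₂.FullSubcategory) : Prop :=
  ∃ E : CochainComplex (prod X Y).Gr ℤ, Nonempty
    (D₁.lift (ObjectProperty.ι (fun P => FlatCx X.I X.x P ∧ D₁ ((Q X.I X.x).obj P)) ⋙ Q X.I X.x)
      (fun P => P.property.2) ⋙ F ⋙ D₂.ι ≅ ObjectProperty.ι _ ⋙ phi E ⋙ Q Y.I Y.x)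

def tensIso : Tens X Y ≅ tens := biWhIso _ _ _ (corIso _ _)

def secIso : Sec X Y ≅ sec := preWhIso _ _ (corIso _ _)

def phiIso (E : CochainComplex (prod X Y).Gr ℤ) : Phi X Y E ≅ phi E :=
  Functor.isoWhiskerRight (totIso (biCxIso tensIso E)) _ ≪≫
    Functor.isoWhiskerLeft _ (totIso (Functor.isoWhiskerRight secIso _))

theorem FourierMukai.isFM {D₁ : ObjectProperty (D X.I X.x)} {D₂ : ObjectProperty (D Y.I Y.x)}
    {F : D₁.FullSubcategory ⥤ D₂.FullSubcategory} (h : FourierMukai F) : IsFM F := by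
  obtain ⟨E, ⟨e⟩⟩ := h
  exact ⟨E, ⟨e ≪≫ Functor.isoWhiskerLeft _ (Functor.isoWhiskerRight (phiIso E) _)⟩⟩

end MP

end FMD
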