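import Pool.Agent.MP_0e6a9f_ag.H68.Gr1

set_option backward.isDefEq.respectTransparency false

open CategoryTheory Limits DirectSum

noncomputable section
namespace FMD

variable {K G R : Type} [Field K] [AddCommGroup G] [DecidableEq G] [CommRing R] [Algebra K R]
  {A : Grd K G R} [GA A] {I : HId A}

attribute [-instance] ObjectProperty.instHasZeroMorphismsFullSubcategory in
instance binGr : HasBinaryBiproducts (GrMod A I) := hasBinaryBiproducts_of_finite_biproducts _

instance zeroGr : HasZeroObject (GrMod A I) := inferInstance

instance prodGr : HasProducts.{0} (GrMod A I) := fun _ => inferInstance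

instance coprodGr : HasCoproducts.{0} (GrMod A I) := fun _ => inferInstance

variable (A I)

instance incAdj : (incl A I).IsLeftAdjoint := inferInstance

/-- The right adjoint of the inclusion, `M ↦ ⨁ d, M.gr d`. -/
def cor : Pre A I ⥤ GrMod A I := (incl A I).rightAdjoint

def corIso : cor A I ≅ sumF :=
  (Adjunction.ofIsLeftAdjoint (incl A I)).rightAdjointUniq (coreflectorAdjunction (incl A I))

instance : (cor A I).Additive := Functor.additive_of_iso (corIso A I).symm

end FMD
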