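import Mathlib

set_option backward.isDefEq.respectTransparency false

open CategoryTheory Limits DirectSum

noncomputable section
namespace FMD

section Generic

variable {G : Type} (R : Type) [CommRing R] {M N P : Type} [AddCommGroup M] [Module R M]
  [AddCommGroup N] [Module R N] [AddCommGroup P] [Module R P] (a : G → AddSubgroup M)
  (b : G → AddSubgroup N) (c : G → AddSubgroup P)

/-- Degree-preserving `R`-linear maps. -/
def homsG : AddSubgroup (M →ₗ[R] N) where
  carrier := {f | ∀ d m, m ∈ a d → f m ∈ b d}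
  add_mem' hf hg d m hm := add_mem (hf d m hm) (hg d m hm)
  zero_mem' _ _ _ := zero_mem _
  neg_mem' hf d m hm := neg_mem (hf d m hm)

abbrev HmG : Type := homsG R a b

abbrev acgG : AddCommGroup (HmG R a b) := (homsG R a b).toAddCommGroup

variable {R}

abbrev IsDeg (f : M →ₗ[R] N) : Prop := f ∈ homsG R a b

variable {a b c}

abbrev mkG (f : M →ₗ[R] N) (h : IsDeg a b f) : HmG R a b := ⟨f, h⟩

abbrev valG (f : HmG R a b) : M →ₗ[R] N := f.1

abbrev idG (a : G → AddSubgroup M) : HmG R a a := mkG LinearMap.id fun _ _ h => h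

abbrev compG (f : HmG R a b) (g : HmG R b c) : HmG R a c :=
  mkG (valG g ∘ₗ valG f) fun d m h => g.2 d _ (f.2 d m h)

abbrev addG (f g : HmG R a b) : HmG R a b := f + g

variable (K : Type) [Field K] [Algebra K R]

variable (R b) in
/-- Scalars from `K` preserve the subgroups `b d`. -/
abbrev AlgOk : Prop := ∀ (k : K) (d : G), ∀ n ∈ b d, algebraMap K R k • n ∈ b d

variable (R M N) in
abbrev linK : Module K (M →ₗ[R] N) := Module.compHom _ (algebraMap K R)

variable {K} (h : AlgOk R b K)

variable (a) in
abbrev subK : @Submodule K (M →ₗ[R] N) _ _ (linK R M N K) :=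
  @Submodule.mk K (M →ₗ[R] N) _ _ (linK R M N K) (homsG R a b).toAddSubmonoid
    fun k _ hf d m hm => h k d _ (hf d m hm)

variable (a) in
abbrev modG : Module K (HmG R a b) := @Submodule.module K _ _ _ (linK R M N K) (subK a h)

abbrev smG (k : K) (f : HmG R a b) : HmG R a b := (modG a h).smul k f

end Generic

section Family

variable {G : Type} (R : Type) [CommRing R] {C : Type 1} (M : C → Type) [∀ c, AddCommGroup (M c)]
  [∀ c, Module R (M c)] (gr : ∀ c, G → AddSubgroup (M c))

abbrev FH (X Y : C) : Type := HmG R (gr X) (gr Y)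

abbrev fId (X : C) : FH R M gr X X := idG (gr X)

abbrev fComp {X Y Z : C} (f : FH R M gr X Y) (g : FH R M gr Y Z) : FH R M gr X Z := compG f g

theorem fId_comp {X Y : C} (f : FH R M gr X Y) : fComp R M gr (fId R M gr X) f = f := rfl

theorem fComp_id {X Y : C} (f : FH R M gr X Y) : fComp R M gr f (fId R M gr Y) = f := rfl

theorem fAssoc {W X Y Z : C} (f : FH R M gr W X) (g : FH R M gr X Y) (h : FH R M gr Y Z) :
    fComp R M gr (fComp R M gr f g) h = fComp R M gr f (fComp R M gr g h) := rfl

/-- The category of degree-preserving linear maps on a family of modules with subgroups. -/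
abbrev famCat : Category.{0} C where
  Hom := FH R M gr
  id := fId R M gr
  comp := fComp R M gr
  id_comp := fId_comp R M gr
  comp_id := fComp_id R M gr
  assoc := fAssoc R M gr

abbrev fAdd {X Y : C} (f g : FH R M gr X Y) : FH R M gr X Y := addG f g

theorem fAdd_comp (X Y Z : C) (f f' : FH R M gr X Y) (g : FH R M gr Y Z) :
    fComp R M gr (fAdd R M gr f f') g = fAdd R M gr (fComp R M gr f g) (fComp R M gr f' g) :=
  Subtype.ext (LinearMap.ext fun _ => g.1.map_add _ _)

theorem fComp_add (X Y Z : C) (f : FH R M gr X Y) (g g' : FH R M gr Y Z) :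
    fComp R M gr f (fAdd R M gr g g') = fAdd R M gr (fComp R M gr f g) (fComp R M gr f g') := rfl

abbrev famPre : @Preadditive C (famCat R M gr) :=
  @Preadditive.mk C (famCat R M gr) (fun X Y => acgG R (gr X) (gr Y)) (fAdd_comp R M gr)
    (fComp_add R M gr)

abbrev fObj (X : C) : ModuleCat.{0} R := ModuleCat.of R (M X)

abbrev fMap {X Y : C} (f : FH R M gr X Y) : fObj R M X ⟶ fObj R M Y := ModuleCat.ofHom (valG f)

theorem fMap_id (X : C) : fMap R M gr (fId R M gr X) = 𝟙 (fObj R M X) := rfl

theorem fMap_comp {X Y Z : C} (f : FH R M gr X Y) (g : FH R M gr Y Z) :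
    fMap R M gr (fComp R M gr f g) = fMap R M gr f ≫ fMap R M gr g := rfl

/-- The underlying module. -/
abbrev famFgt : @CategoryTheory.Functor C (famCat R M gr) (ModuleCat.{0} R) _ :=
  @CategoryTheory.Functor.mk C (famCat R M gr) (ModuleCat.{0} R) _ (fObj R M) (fMap R M gr)
    (fMap_id R M gr)
    (fMap_comp R M gr)

variable {K : Type} [Field K] [Algebra K R] (h : ∀ X, AlgOk R (gr X) K)

abbrev fSm {X Y : C} (k : K) (f : FH R M gr X Y) : FH R M gr X Y := smG (h Y) k f

theorem fSm_comp (X Y Z : C) (k : K) (f : FH R M gr X Y) (g : FH R M gr Y Z) :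
    fComp R M gr (fSm R M gr h k f) g = fSm R M gr h k (fComp R M gr f g) :=
  Subtype.ext (LinearMap.ext fun _ => g.1.map_smul _ _)

theorem fComp_sm (X Y Z : C) (f : FH R M gr X Y) (k : K) (g : FH R M gr Y Z) :
    fComp R M gr f (fSm R M gr h k g) = fSm R M gr h k (fComp R M gr f g) := rfl

abbrev famLin : @Linear K _ C (famCat R M gr) (famPre R M gr) :=
  @Linear.mk K _ C (famCat R M gr) (famPre R M gr) (fun X Y => modG (gr X) (h Y))
    (fSm_comp R M gr h) (fComp_sm R M gr h)

end Family

abbrev Grd (K G R : Type) [Field K] [CommRing R] [Algebra K R] := G → Submodule K R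

variable {K G R : Type} [Field K] [AddCommGroup G] [DecidableEq G] [CommRing R] [Algebra K R]

abbrev GA (A : Grd K G R) := GradedAlgebra A

abbrev HId (A : Grd K G R) [GA A] := HomogeneousIdeal A

abbrev idl {A : Grd K G R} [GA A] (I : HId A) : Ideal R := I.toIdeal

variable (A : Grd K G R) [GA A] (I : HId A)

/-- An `R/I`-module with subgroups `gr d` such that `A a • gr d ⊆ gr (a + d)`. -/
structure Pre where
  M : Type
  [acg : AddCommGroup M]
  [mod : Module R M]
  gr : G → AddSubgroup M
  smul_mem : ∀ {a d : G} {r : R} {m : M}, r ∈ A a → m ∈ gr d → r • m ∈ gr (a + d)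
  kill : ∀ r ∈ I, ∀ m : M, r • m = 0

attribute [instance] Pre.acg Pre.mod

variable {A I}

abbrev homs (M N : Pre A I) : AddSubgroup (M.M →ₗ[R] N.M) := homsG R M.gr N.gr

instance catPre : Category.{0} (Pre A I) := famCat R Pre.M Pre.gr

@[ext] lemma Pre.hom_ext {M N : Pre A I} {f g : M ⟶ N} (h : ∀ m, f.1 m = g.1 m) : f = g :=
  Subtype.ext (LinearMap.ext h)

instance prePre : Preadditive (Pre A I) := famPre R Pre.M Pre.gr

theorem Pre.algOk (N : Pre A I) : AlgOk R N.gr K :=
  fun c d n h => by simpa using N.smul_mem (SetLike.algebraMap_mem_graded A c) h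

instance linPre : Linear K (Pre A I) := famLin R Pre.M Pre.gr Pre.algOk

/-- `M` is the internal direct sum of the subgroups `a d`. -/
abbrev Intl {M : Type} [AddCommGroup M] (a : G → AddSubgroup M) : Prop := IsInternal a

variable (A I)

abbrev IsGr : ObjectProperty (Pre A I) := fun M => Intl M.gr

/-- Graded `R/I`-modules: `M` is the internal direct sum of the `gr d`. -/
abbrev GrMod := (IsGr A I).FullSubcategory

variable {A I}

instance catGr : Category.{0} (GrMod A I) := ObjectProperty.FullSubcategory.category (IsGr A I)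

instance preGr : Preadditive (GrMod A I) := Preadditive.fullSubcategory (IsGr A I)

instance linGr : Linear K (GrMod A I) := Linear.fullSubcategory (IsGr A I)

variable (A I) in
/-- The inclusion of graded modules. -/
abbrev incl : GrMod A I ⥤ Pre A I := (IsGr A I).ι

/-- `A a • gr d ⊆ gr (a + d)` and `I` acts by zero. -/
structure Ok (I : HId A) {M : Type} [AddCommGroup M] [Module R M]
    (gr : G → AddSubgroup M) : Prop where
  smul_mem : ∀ {a d : G} {r : R} {m : M}, r ∈ A a → m ∈ gr d → r • m ∈ gr (a + d)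
  kill : ∀ r ∈ I, ∀ m : M, r • m = 0

abbrev Ok.pre {M : Type} [AddCommGroup M] [Module R M] {gr : G → AddSubgroup M} (h : Ok I gr) :
    Pre A I := ⟨M, gr, h.smul_mem, h.kill⟩

theorem Pre.ok (M : Pre A I) : Ok I M.gr := ⟨M.smul_mem, M.kill⟩

end FMD
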