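import Pool.Agent.MP_0e6a9f_ag.H68.Gr0

set_option backward.isDefEq.respectTransparency false

open CategoryTheory Limits DirectSum

noncomputable section
namespace FMD

variable {K G R : Type} [Field K] [AddCommGroup G] [DecidableEq G] [CommRing R] [Algebra K R]
  {A : Grd K G R} [GA A] {I : HId A}

instance (J : Type) : HasLimitsOfShape (Discrete J) (Pre A I) :=
  ⟨fun F => HasLimit.mk ⟨⟨
    { M := ∀ j, (F.obj j).M
      gr d := AddSubgroup.pi Set.univ fun j => (F.obj j).gr d
      smul_mem hr hm j hj := (F.obj j).smul_mem hr (hm j hj)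
      kill r hr _ := funext fun j => (F.obj j).kill r hr _ },
    Discrete.natTrans fun j => ⟨LinearMap.proj j, fun _ _ h => h j trivial⟩⟩,
    { lift s := ⟨LinearMap.pi fun j => (s.π.app j).1, fun d m h j _ => (s.π.app j).2 d m h⟩
      fac _ _ := rfl
      uniq _ _ h := Pre.hom_ext fun x => funext fun j => congr(($(h j)).1 x) }⟩⟩

open Classical in
instance (J : Type) : HasColimitsOfShape (Discrete J) (Pre A I) :=
  ⟨fun F => HasColimit.mk ⟨⟨
    { M := ⨁ j, (F.obj j).M
      gr d := ⨆ j, ((F.obj j).gr d).map (of (fun j => (F.obj j).M) j)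
      smul_mem {a d r m} hr hm := by
        induction hm using AddSubgroup.iSup_induction' with
        | hp j x hx =>
          obtain ⟨y, hy, rfl⟩ := hx
          exact AddSubgroup.mem_iSup_of_mem j
            ⟨r • y, (F.obj j).smul_mem hr hy, (lof R _ (fun j => (F.obj j).M) j).map_smul r y⟩
        | h1 => simp
        | hadd x y _ _ hx hy => rw [smul_add]; exact add_mem hx hy
      kill r hr m := DFinsupp.ext fun j => (F.obj j).kill r hr _ },
    Discrete.natTrans fun j => ⟨lof R _ (fun j => (F.obj j).M) j, fun _ m h =>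
      AddSubgroup.mem_iSup_of_mem j ⟨m, h, rfl⟩⟩⟩,
    { desc s := ⟨toModule R _ _ fun j => (s.ι.app j).1, fun d m hm => by
        induction hm using AddSubgroup.iSup_induction' with
        | hp j x hx =>
          obtain ⟨y, hy, rfl⟩ := hx
          exact (toModule_lof R (M := fun j => (F.obj j).M) (N := s.pt.M)
            (φ := fun j => (s.ι.app j).1) j y).symm ▸
            (s.ι.app j).2 d y hy
        | h1 => simp
        | hadd x y _ _ hx hy => rw [map_add]; exact add_mem hx hy⟩
      fac s j := Pre.hom_ext fun x => toModule_lof R (M := fun j => (F.obj j).M) (N := s.pt.M)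
        (φ := fun j => (s.ι.app j).1) j x
      uniq s f h := Subtype.ext (linearMap_ext R fun j => LinearMap.ext fun x =>
        (congr(($(h j)).1 x)).trans (toModule_lof R (M := fun j => (F.obj j).M) (N := s.pt.M)
          (φ := fun j => (s.ι.app j).1) j x).symm) }⟩⟩

instance (M : Pre A I) : SetLike.GradedSMul A M.gr := ⟨fun _ _ _ _ => M.smul_mem⟩

instance (M : Pre A I) : Module R (⨁ d, M.gr d) := GradedModule.isModule A M.gr

lemma smul_of (M : Pre A I) {a d : G} {r : R} (hr : r ∈ A a) (m : M.gr d) :
    r • of (fun d => M.gr d) d m = of (fun d => M.gr d) (a + d) ⟨r • m, M.smul_mem hr m.2⟩ := by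
  change decompose A r • of (fun d => M.gr d) d m = _
  rw [decompose_of_mem A hr]
  exact Gmodule.of_smul_of _ _ _ _

/-- The linear map out of `⨁ d, M.gr d` given by compatible maps on the pieces. -/
def Pre.desc (M : Pre A I) {N : Type} [AddCommGroup N] [Module R N] (f : ∀ d, M.gr d →+ N)
    (h : ∀ a d r (hr : r ∈ A a) (m : M.gr d),
      f (a + d) ⟨r • m, M.smul_mem hr m.2⟩ = r • f d m) : (⨁ d, M.gr d) →ₗ[R] N where
  toFun := toAddMonoid f
  map_add' := map_add _
  map_smul' r x := by
    induction x using DirectSum.induction_on with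
    | zero => simp
    | add x y hx hy => simp_all
    | of d m =>
      induction r using Decomposition.inductionOn A with
      | zero => simp
      | add r s hr hs => simp_all [add_smul]
      | homogeneous r => rw [smul_of M r.2, toAddMonoid_of, toAddMonoid_of, h _ _ _ r.2]; rfl

@[simp] lemma Pre.desc_of (M : Pre A I) {N : Type} [AddCommGroup N] [Module R N]
    (f : ∀ d, M.gr d →+ N) (h) (d : G) (m : M.gr d) :
    M.desc f h (of (fun d => M.gr d) d m) = f d m := toAddMonoid_of _ _ _

/-- The `d`-th summand of `⨁ d, M.gr d`. -/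
abbrev Pre.inc (M : Pre A I) (d : G) : AddSubgroup (⨁ d, M.gr d) := (of (fun d => M.gr d) d).range

/-- The graded module `⨁ d, M.gr d`. -/
def sumObj (M : Pre A I) : GrMod A I where
  obj :=
    { M := ⨁ d, M.gr d
      gr d := M.inc d
      smul_mem := by
        rintro a d r _ hr ⟨m, rfl⟩
        exact ⟨_, (smul_of M hr m).symm⟩
      kill r hr m := by
        classical
        induction m using DirectSum.induction_on with
        | zero => simp
        | add x y hx hy => simp [hx, hy]
        | of d m =>
          rw [← sum_support_decompose A r, Finset.sum_smul]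
          refine Finset.sum_eq_zero fun a _ => ?_
          rw [smul_of M (decompose A r a).2, ← (of (fun d => M.gr d) (a + d)).map_zero]
          exact congrArg _ (Subtype.ext (M.kill _ (I.isHomogeneous a hr) _)) }
  property := (Decomposition.ofAddHom M.inc
    (toAddMonoid (β := fun d => M.gr d) fun d =>
      (of (fun d => M.inc d) d).comp (of (fun d => M.gr d) d).rangeRestrict)
    (addHom_ext (β := fun d => M.gr d) fun d m => by simp)
    (addHom_ext fun d m => by
      obtain ⟨_, m, rfl⟩ := m
      simp
      rfl)).isInternal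

lemma sum_ext {M N : Pre A I} {f g : (sumObj M).obj ⟶ N}
    (h : ∀ d m, f.1 (of (fun d => M.gr d) d m) = g.1 (of (fun d => M.gr d) d m)) : f = g :=
  Pre.hom_ext fun x => congr($(addHom_ext (f := f.1.toAddMonoidHom)
    (g := g.1.toAddMonoidHom) h) x)

/-- The restriction of a map to degree `d`. -/
def homs.at {M N : Pre A I} (f : M ⟶ N) (d : G) : M.gr d →+ N.gr d :=
  (f.1.toAddMonoidHom.comp (M.gr d).subtype).codRestrict _ fun m => f.2 d _ m.2

/-- The map induced on `⨁ d, M.gr d`. -/
def sumMap {M N : Pre A I} (f : M ⟶ N) : (sumObj M).obj ⟶ (sumObj N).obj :=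
  ⟨M.desc (fun d => (of (fun d => N.gr d) d).comp (homs.at f d))
      fun a d r hr m => ((smul_of N hr (homs.at f d m)).trans
        (congrArg (of (fun d => N.gr d) (a + d))
          (by exact Subtype.ext (f.1.map_smul r m).symm))).symm,
    by
      rintro d _ ⟨m, rfl⟩
      exact ⟨homs.at f d m, by symm; apply M.desc_of⟩⟩

lemma sumMap_of {M N : Pre A I} (f : M ⟶ N) (d : G) (m : M.gr d) :
    (sumMap f).1 (of (fun d => M.gr d) d m) = of (fun d => N.gr d) d (homs.at f d m) :=
  toAddMonoid_of (β := fun d => M.gr d) (fun d => (of (fun d => N.gr d) d).comp (homs.at f d)) d m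

/-- `M ↦ ⨁ d, M.gr d` as a functor. -/
def sumF : Pre A I ⥤ GrMod A I where
  obj := sumObj
  map f := ObjectProperty.homMk (sumMap f)
  map_id _ := ObjectProperty.hom_ext _ (sum_ext fun d m => sumMap_of _ d m)
  map_comp f g := ObjectProperty.hom_ext _ (sum_ext fun d m => (sumMap_of _ d m).trans
    ((congrArg (sumMap g).1 (sumMap_of f d m)).trans (sumMap_of g d _)).symm)

/-- The sum map `⨁ d, M.gr d → M`. -/
def eps (M : Pre A I) : (sumObj M).obj ⟶ M :=
  ⟨M.desc (fun d => (M.gr d).subtype) fun _ _ _ _ _ => rfl, by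
    rintro d _ ⟨m, rfl⟩
    exact (M.desc_of (fun d => (M.gr d).subtype) (fun _ _ _ _ _ => rfl) d m).symm ▸ m.2⟩

lemma eps_of (M : Pre A I) (d : G) (m : M.gr d) :
    (eps M).1 (of (fun d => M.gr d) d m) = m :=
  toAddMonoid_of (β := fun d => M.gr d) (fun d => (M.gr d).subtype) d m

instance (N : GrMod A I) : IsIso (eps N.obj) := by
  let e := LinearEquiv.ofBijective (eps N.obj).1 N.property
  refine ⟨⟨e.symm.toLinearMap, fun d m hm => ⟨⟨m, hm⟩, ?_⟩⟩, Pre.hom_ext e.symm_apply_apply,
    Pre.hom_ext e.apply_symm_apply⟩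
  exact e.eq_symm_apply.2 (eps_of _ d ⟨m, hm⟩)

lemma eps_nat {M N : Pre A I} (f : M ⟶ N) : sumMap f ≫ eps N = eps M ≫ f :=
  sum_ext fun d m => (congrArg (eps N).1 (sumMap_of f d m)).trans
    ((eps_of N _ _).trans (congrArg f.1 (eps_of M d m)).symm)

instance : Coreflective (IsGr A I).ι where
  R := sumF
  adj :=
    { unit :=
        { app N := ObjectProperty.homMk (inv (eps N.obj))
          naturality M N f := ObjectProperty.hom_ext _ (by
            change f.hom ≫ inv (eps N.obj) = inv (eps M.obj) ≫ sumMap f.hom
            rw [IsIso.eq_inv_comp, ← Category.assoc, ← eps_nat, Category.assoc, IsIso.hom_inv_id,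
              Category.comp_id]) }
      counit := { app := eps, naturality _ _ f := eps_nat f }
      left_triangle_components N := IsIso.inv_hom_id (eps N.obj)
      right_triangle_components M := ObjectProperty.hom_ext _ (by
        change inv (eps (sumObj M).obj) ≫ sumMap (eps M) = 𝟙 _
        rw [IsIso.inv_comp_eq, Category.comp_id]
        refine sum_ext ?_
        rintro d ⟨_, m, rfl⟩
        refine (sumMap_of _ _ _).trans (Eq.trans ?_ (eps_of _ _ _).symm)
        exact congrArg _ (Subtype.ext (eps_of M d m))) }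

instance (J : Type) : HasLimitsOfShape (Discrete J) (GrMod A I) :=
  hasLimitsOfShape_of_coreflective (ObjectProperty.ι _)

instance (J : Type) : HasColimitsOfShape (Discrete J) (GrMod A I) :=
  hasColimitsOfShape_of_coreflective (ObjectProperty.ι _)

instance : HasFiniteBiproducts (GrMod A I) := HasFiniteBiproducts.of_hasFiniteProducts

instance : HasBinaryBiproducts (GrMod A I) := hasBinaryBiproducts_of_finite_biproducts _

instance : (sumF : Pre A I ⥤ _).Additive where
  map_add {_ N f g} := ObjectProperty.hom_ext _ (sum_ext fun d m => (sumMap_of _ _ _).trans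
    (((of (fun d => N.gr d) d).map_add (homs.at f d m) (homs.at g d m)).trans
      (congrArg₂ _ (sumMap_of f d m) (sumMap_of g d m)).symm))

instance : (sumF : Pre A I ⥤ _).Linear K where
  map_smul {_ N} f c := ObjectProperty.hom_ext _ (sum_ext fun d m => by
    refine (sumMap_of _ _ _).trans (Eq.symm ?_)
    change algebraMap K R c • (sumMap f).1 _ = _
    rw [sumMap_of, smul_of N (SetLike.algebraMap_mem_graded A c)]
    exact of_eq_of_gradedMonoid_eq (Sigma.subtype_ext (zero_add d) rfl))

end FMD
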