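import Pool.Agent.MP_0e6a9f_ag.H68.Der

set_option backward.isDefEq.respectTransparency false

open CategoryTheory Limits MvPolynomial TensorProduct

noncomputable section
namespace FMD

universe u

section Bi

variable {C₁ C₃ : Type 1} {C₂ : Type u} [Category.{0} C₁] [Category.{0} C₂] [Category.{0} C₃]
  (o : C₁ → C₂ → C₃) (m : ∀ {P P' : C₁} {N N' : C₂}, (P ⟶ P') → (N ⟶ N') → (o P N ⟶ o P' N'))

/-- The laws of a functor of two variables. -/
structure BiFun : Prop where
  id : ∀ P N, m (𝟙 P) (𝟙 N) = 𝟙 (o P N)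
  comp : ∀ {P P' P'' N N' N''} (f : P ⟶ P') (f' : P' ⟶ P'') (g : N ⟶ N') (g' : N' ⟶ N''),
    m f g ≫ m f' g' = m (f ≫ f') (g ≫ g')

/-- The bifunctor with object part `o` and morphism part `m`. -/
def mkBi (h : BiFun o m) : C₁ ⥤ C₂ ⥤ C₃ :=
  Functor.curry.obj
    { obj p := o p.1 p.2
      map f := m f.1 f.2
      map_id p := h.id p.1 p.2
      map_comp f g := (h.comp f.1 g.1 f.2 g.2).symm }

end Bi

section Cx

variable {C₁ C₂ C₃ : Type 1} [Category.{0} C₁] [Category.{0} C₂] [Category.{0} C₃]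

/-- `(P, N) ↦ c (T (i P, j N))`. -/
def biWh {B₁ B₂ : Type 1} [Category.{0} B₁] [Category.{0} B₂] (T : B₁ ⥤ B₂ ⥤ B₂) (i : C₁ ⥤ B₁)
    (j : C₂ ⥤ B₂) (c : B₂ ⥤ C₂) : C₁ ⥤ C₂ ⥤ C₂ :=
  i ⋙ T ⋙ (Functor.whiskeringLeft _ _ _).obj j ⋙ (Functor.whiskeringRight _ _ _).obj c

/-- `(P, U) ↦ c (T (i P, U))`. -/
def preWh {B₁ B₃ : Type 1} {U : Type} [Category.{0} B₁] [Category.{0} B₃] [Category.{0} U]
    (T : B₁ ⥤ U ⥤ B₃) (i : C₁ ⥤ B₁) (c : B₃ ⥤ C₃) : C₁ ⥤ U ⥤ C₃ :=
  i ⋙ T ⋙ (Functor.whiskeringRight _ _ _).obj c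

variable [Preadditive C₁] [Preadditive C₂] [Preadditive C₃]

section

variable (T : C₁ ⥤ C₂ ⥤ C₂) [∀ P, (T.obj P).Additive] (E : CxG C₂)

abbrev biObj (P : C₁) : CxG C₂ := ((T.obj P).mapHomologicalComplex _).obj E

abbrev biMap {P P' : C₁} (f : P ⟶ P') : biObj T E P ⟶ biObj T E P' :=
  (NatTrans.mapHomologicalComplex (T.map f) _).app E

omit [Preadditive C₁] in
theorem biMap_id (P : C₁) : biMap T E (𝟙 P) = 𝟙 (biObj T E P) := by ext; simp; rfl

omit [Preadditive C₁] in
theorem biMap_comp {P P' P'' : C₁} (f : P ⟶ P') (g : P' ⟶ P'') :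
    biMap T E (f ≫ g) = biMap T E f ≫ biMap T E g := by ext; simp

/-- `P ↦ T (P, E)` for a complex `E`. -/
def biCx : C₁ ⥤ CxG C₂ where
  obj := biObj T E
  map := biMap T E
  map_id := biMap_id T E
  map_comp := biMap_comp T E

end

instance addBiCx (T : C₁ ⥤ C₂ ⥤ C₂) [∀ P, (T.obj P).Additive] [T.Additive]
    (E : CochainComplex C₂ ℤ) : (biCx T E).Additive where
  map_add := by intros; ext; simp [biCx]

instance {C B : Type*} {J : Type} [Category C] [Category B] [HasFiniteProducts C] [Preadditive B]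
    [HasProducts.{0} B] (U : J → C) : (cechComplexFunctor (A := B) U).Additive where
  map_add {_ _ f g} := by
    ext n : 1
    exact Pi.hom_ext _ _ fun i => by simp [cechComplexFunctor]

variable {U J : Type} [Category.{0} U] [HasFiniteProducts U] [HasProducts.{0} C₃]
  [HasZeroObject C₃] (s : C₂ ⥤ Uᵒᵖ ⥤ C₃) (y : J → U)

/-- The Cech complex of the presheaf `s N` for the family `y`. -/
def cech : C₂ ⥤ CochainComplex C₃ ℤ :=
  s ⋙ cechComplexFunctor y ⋙ ComplexShape.embeddingUpNat.extendFunctor _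

instance addCech [s.Additive] : (cech s y).Additive := by
  unfold cech
  infer_instance

/-- `P ↦ Tot Cech (s (Tot T (P, E)))` on complexes. -/
def PhiG [HasCoproducts.{0} C₂] [HasCoproducts.{0} C₃] [s.Additive] (T : C₁ ⥤ C₂ ⥤ C₂)
    [∀ P, (T.obj P).Additive] [T.Additive] (E : CochainComplex C₂ ℤ) :
    CochainComplex C₁ ℤ ⥤ CochainComplex C₃ ℤ :=
  tot (biCx T E) ⋙ tot (cech s y)

end Cx

section Rings

variable {K G R H S F : Type} [Field K] [AddCommGroup G] [DecidableEq G] [CommRing R] [Algebra K R]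
  {A : Grd K G R} [GA A] {I : HId A}

section Tens

variable [CommRing S] [Algebra S R] (δ : H → G)

section

variable {N N' P P' : Type} [AddCommGroup N] [AddCommGroup P] [Module S P]
  [AddCommGroup N'] [AddCommGroup P'] [Module S P']

variable (S) in
/-- The grading of `N ⊗_S P`. -/
def tensGr [Module S N] (a : G → AddSubgroup N) (b : H → AddSubgroup P) (d : G) :
    AddSubgroup (N ⊗[S] P) :=
  .closure {z | ∃ e c, ∃ n ∈ a e, ∃ p ∈ b c, e + δ c = d ∧ n ⊗ₜ p = z}

variable [Module R N] [Module R N']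

variable (S R N) in
abbrev resM : Module S N := Module.compHom N (algebraMap S R)

variable (S R N) in
theorem towerM : @IsScalarTower S R N _ _ (resM R S N).toSMul :=
  letI := resM R S N
  ⟨fun a b m => (congrArg (· • m) (Algebra.smul_def a b)).trans (mul_smul _ b m)⟩

variable (S R N) in
theorem commM : @SMulCommClass S R N (resM R S N).toSMul _ :=
  letI := resM R S N
  ⟨fun a b m => smul_comm (algebraMap S R a) b m⟩

variable (S R N P) in
/-- `N ⊗_S P` for an `R`-module `N`. -/
abbrev TN : Type := @TensorProduct S _ N P _ _ (resM R S N) _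

variable (S R N P) in
abbrev acgT : AddCommGroup (TN R S N P) := @TensorProduct.addCommGroup S _ N P _ _ (resM R S N) _

variable (S R N P) in
abbrev modT : @Module R (TN R S N P) _ (acgT R S N P).toAddCommMonoid :=
  @TensorProduct.leftModule S R _ _ N P _ _ _ (resM R S N) _ (commM R S N)

variable (S R) in
abbrev grT (a : G → AddSubgroup N) (b : H → AddSubgroup P) :
    G → @AddSubgroup (TN R S N P) (acgT R S N P).toAddGroup := @tensGr _ _ S _ _ δ N P _ _ _ (resM R S N) a b

variable {a : G → AddSubgroup N} {a' : G → AddSubgroup N'}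

omit [Algebra S R] in
theorem Ok.tens₀ [Module S N] [SMulCommClass S R N] (h : Ok I a) (b : H → AddSubgroup P) :
    Ok I (tensGr S δ a b) where
  smul_mem {a d r m} hr hm := by
    induction hm using AddSubgroup.closure_induction with
    | mem z hz =>
      obtain ⟨e, b, n, hn, p, hp, rfl, rfl⟩ := hz
      exact AddSubgroup.subset_closure
        ⟨_, b, _, h.smul_mem hr hn, p, hp, add_assoc .., (smul_tmul' r n p).symm⟩
    | zero => simp
    | add _ _ _ _ h h' => rw [smul_add]; exact add_mem h h'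
    | neg _ _ h => rw [smul_neg]; exact neg_mem h
  kill r hr m := by
    induction m with
    | zero => simp
    | tmul n p => rw [smul_tmul', h.kill r hr, zero_tmul]
    | add _ _ h h' => rw [smul_add, h, h', add_zero]

theorem Ok.tens (h : Ok I a) (b : H → AddSubgroup P) :
    @Ok _ _ _ _ _ _ _ _ _ _ I _ (acgT R S N P) (modT R S N P) (grT R S δ a b) :=
  letI := resM R S N
  haveI := commM R S N
  h.tens₀ δ b

variable (S) in
abbrev tensPre (h : Ok I a) (b : H → AddSubgroup P) : Pre A I :=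
  @Ok.pre _ _ _ _ _ _ _ _ _ _ I _ (acgT R S N P) (modT R S N P) _ (h.tens δ b)

abbrev tensLin (f : P →ₗ[S] P') (g : N →ₗ[R] N') :
    @LinearMap R R _ _ (RingHom.id R) (TN R S N P) (TN R S N' P') _ _ (modT R S N P)
      (modT R S N' P') :=
  @AlgebraTensorModule.map S R N P N' P' _ _ _ _ (resM R S N) _ (towerM R S N) _ _ _
    (resM R S N') _ (towerM R S N') _ _ g f

variable {b : H → AddSubgroup P} {b' : H → AddSubgroup P'}

omit [DecidableEq G] in
theorem tensDeg (f : HmG S b b') (g : HmG R a a') :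
    @IsDeg G R _ _ _ (acgT R S N P) (modT R S N P) (acgT R S N' P') (modT R S N' P')
      (grT R S δ a b) (grT R S δ a' b') (tensLin (valG f) (valG g)) := by
  let := resM R S N
  let := resM R S N'
  intro d _ hm
  exact (AddSubgroup.closure_le
    ((tensGr S δ a' b' d).comap (tensLin f.1 g.1).toAddMonoidHom)).2 (by
      rintro _ ⟨e, b, n, hn, p, hp, h, rfl⟩
      exact AddSubgroup.subset_closure ⟨e, b, _, g.2 _ _ hn, _, f.2 _ _ hp, h, rfl⟩) hm

abbrev tensHom (f : HmG S b b') (g : HmG R a a') :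
    @HmG G R _ _ _ (acgT R S N P) (modT R S N P) (acgT R S N' P') (modT R S N' P')
      (grT R S δ a b) (grT R S δ a' b') :=
  @mkG G R _ _ _ (acgT R S N P) (modT R S N P) (acgT R S N' P') (modT R S N' P') _ _
    (tensLin (valG f) (valG g)) (tensDeg δ f g)

end

variable [AddCommGroup H] [DecidableEq H] [Algebra K S] {B : Grd K H S} [GA B] {J : HId B}

/-- `N ⊗_S P` with its grading. -/
def tObj (P : Pre B J) (N : Pre A I) : Pre A I := tensPre S δ N.ok P.gr

def tMap {P P' : Pre B J} {N N' : Pre A I} (f : P ⟶ P') (g : N ⟶ N') :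
    tObj δ P N ⟶ tObj δ P' N' := tensHom δ f g

lemma tObj_ext {P : Pre B J} {N N' : Pre A I} {f g : tObj δ P N ⟶ N'}
    (h : ∀ n p, f.1 (@tmul S _ N.M P.M _ _ (resM R S N.M) _ n p) =
      g.1 (@tmul S _ N.M P.M _ _ (resM R S N.M) _ n p)) : f = g :=
  letI := resM R S N.M
  Pre.hom_ext fun m => TensorProduct.induction_on (motive := fun m => f.1 m = g.1 m) m
    (f.1.map_zero.trans g.1.map_zero.symm) h fun x y hx hy =>
      (f.1.map_add x y).trans ((congrArg₂ _ hx hy).trans (g.1.map_add x y).symm)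

variable (I J)

theorem tBi : BiFun (tObj (I := I) (J := J) δ) (tMap δ) :=
  ⟨fun _ _ => tObj_ext δ fun _ _ => rfl, fun _ _ _ _ => tObj_ext δ fun _ _ => rfl⟩

/-- The bifunctor `(P, N) ↦ N ⊗_S P` on graded modules. -/
def tensG : GrMod B J ⥤ GrMod A I ⥤ GrMod A I :=
  biWh (mkBi _ _ (tBi I δ J)) (incl B J) (incl A I) (cor A I)

instance addTensG (P : GrMod B J) : ((tensG I δ J).obj P).Additive where
  map_add {_ _ f g} := (congrArg (cor A I).map (show tMap δ (𝟙 _) (f.hom + g.hom) =
    tMap δ (𝟙 _) f.hom + tMap δ (𝟙 _) g.hom from tObj_ext δ fun _ _ =>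
      @add_tmul S _ _ _ _ _ (resM R S _) _ _ _ _)).trans (cor A I).map_add

instance addTensG' : (tensG I δ J).Additive where
  map_add {_ _ f g} := NatTrans.ext (funext fun N =>
    (congrArg (cor A I).map (show tMap δ (f.hom + g.hom) (𝟙 N.obj) = tMap δ f.hom (𝟙 _) +
      tMap δ g.hom (𝟙 _) from tObj_ext δ fun _ _ =>
        @TensorProduct.tmul_add S _ _ _ _ _ (resM R S _) _ _ _ _)).trans (cor A I).map_add)

end Tens

section Sec

variable [CommRing S] [AddCommGroup H] [DecidableEq H] [Algebra K S] {B : Grd K H S}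
  [GA B] (φ : S →+* R) (ε : F → H → G)

variable (I) in
/-- `φ` maps `J` into `I` and `B b` into a degree that moves `ε a d` to `ε a (b + d)`. -/
structure Over (J : HId B) : Prop where
  deg : ∀ b, ∀ r ∈ B b, ∃ g, φ r ∈ A g ∧ ∀ a d, g + ε a d = ε a (b + d)
  ideal : ∀ r ∈ J, φ r ∈ I

variable {J : HId B}

section

variable {N N' : Type} [AddCommGroup N] [Module R N] [AddCommGroup N'] [Module R N']

variable (A) in
/-- The part of degree `(0, b)` of `N[T⁻¹]`. -/
def secGr (T : Submonoid R) (a : G → AddSubgroup N) (b : H) : AddSubgroup (LocalizedModule T N) :=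
  .closure {z | ∃ c, ∃ n ∈ a (ε c b), ∃ s : T, s.1 ∈ A (ε c 0) ∧ LocalizedModule.mk n s = z}

abbrev secMod (T : Submonoid R) (N : Type) [AddCommGroup N] [Module R N] :
    Module S (LocalizedModule T N) := Module.compHom (LocalizedModule T N) φ

variable {φ ε} {a : G → AddSubgroup N} {a' : G → AddSubgroup N'}

theorem Ok.sec (h : Ok I a) (o : Over I φ ε J) (T : Submonoid R) :
    @Ok _ _ _ _ _ _ _ _ _ _ J _ _ (secMod φ T N) (secGr A ε T a) := by
  let := secMod φ T N
  refine ⟨fun {b d r m} hr hm => ?_, fun r hr m => ?_⟩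
  · induction hm using AddSubgroup.closure_induction with
    | mem z hz =>
      obtain ⟨c, n, hn, s, hs, rfl⟩ := hz
      obtain ⟨g, hg, e⟩ := o.deg b r hr
      exact AddSubgroup.subset_closure ⟨c, φ r • n, e c d ▸ h.smul_mem hg hn, s, hs,
        (LocalizedModule.smul'_mk (φ r) n s).symm⟩
    | zero => exact (smul_zero (A := LocalizedModule T N) (φ r)).symm ▸ zero_mem _
    | add y z _ _ h h' => exact (smul_add (φ r) y z).symm ▸ add_mem h h'
    | neg y _ h => exact (smul_neg (φ r) y).symm ▸ neg_mem h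
  · induction m using LocalizedModule.induction_on with | _ n s =>
    refine (LocalizedModule.smul'_mk (φ r) n s).trans ?_
    rw [h.kill (φ r) (o.ideal r hr), LocalizedModule.zero_mk]

abbrev secPre (h : Ok I a) (o : Over I φ ε J) (T : Submonoid R) : Pre B J :=
  @Ok.pre _ _ _ _ _ _ _ _ _ _ J _ _ (secMod φ T N) _ (h.sec o T)

/-- An `R`-linear map is `S`-linear along `φ`. -/
abbrev resLin {M M' : Type} [AddCommGroup M] [Module R M] [AddCommGroup M'] [Module R M']
    (φ : S →+* R) (f : M →ₗ[R] M') :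
    @LinearMap S S _ _ (RingHom.id S) M M' _ _ (Module.compHom M φ) (Module.compHom M' φ) :=
  @LinearMap.mk S S _ _ (RingHom.id S) M M' _ _ (Module.compHom M φ) (Module.compHom M' φ)
    f.toAddHom fun r m => f.map_smul (φ r) m

variable (A φ ε) {T T' : Submonoid R} (e : T ≤ T') (g : HmG R a a')

omit [AddCommGroup G] [DecidableEq G] [GA A] [DecidableEq H] [Algebra K S] in
theorem secDeg : @IsDeg H S _ _ _ _ (secMod φ T N) _ (secMod φ T' N') (secGr A ε T a)
    (secGr A ε T' a') (resLin φ (locMap e (valG g))) := fun d _ hm =>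
  (AddSubgroup.closure_le ((secGr A ε T' a' d).comap (locMap e g.1).toAddMonoidHom)).2 (by
    rintro _ ⟨a, n, hn, s, hs, rfl⟩
    exact AddSubgroup.subset_closure ⟨a, _, g.2 _ _ hn, ⟨s, e s.2⟩, hs, (locMap_mk ..).symm⟩) hm

abbrev secHom :
    @HmG H S _ _ _ _ (secMod φ T N) _ (secMod φ T' N') (secGr A ε T a) (secGr A ε T' a') :=
  @mkG H S _ _ _ _ (secMod φ T N) _ (secMod φ T' N') _ _ (resLin φ (locMap e (valG g)))
    (secDeg A φ ε e g)

end

variable {φ ε} (o : Over I φ ε J)

variable (R) in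
/-- Submonoids `T`, standing for the open sets where the elements of `T` do not vanish. -/
abbrev Opn := (Submonoid R)ᵒᵈ

variable (R) in
abbrev catOpn : Category.{0} (Opn R) := Preorder.smallCategory _

/-- The open sets where `φ (y c)` does not vanish. -/
def coverG (φ : S →+* R) (y : F → S) (c : F) : Opn R :=
  OrderDual.toDual (Submonoid.powers (φ (y c)))

/-- `N[T⁻¹]` over `S`, graded by its parts of degree `(0, b)`. -/
def sObj (N : Pre A I) (T : (Opn R)ᵒᵖ) : Pre B J := secPre N.ok o T.unop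

def sMap {N N' : Pre A I} {T T' : (Opn R)ᵒᵖ} (g : N ⟶ N') (e : T ⟶ T') :
    sObj o N T ⟶ sObj o N' T' := secHom A φ ε e.unop.le g

theorem sBi : BiFun (sObj o) (sMap o) :=
  ⟨fun _ _ => Pre.hom_ext fun m => LocalizedModule.induction_on (fun _ _ => locMap_mk ..) m,
    fun f f' g g' => Pre.hom_ext fun m => LocalizedModule.induction_on (fun _ _ =>
      (congrArg (locMap g'.unop.le f'.1) (locMap_mk ..)).trans
        ((locMap_mk ..).trans (locMap_mk (g ≫ g').unop.le (f ≫ f').1 _ _).symm)) m⟩

/-- The presheaf `T ↦ N[T⁻¹]_(0,*)`. -/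
def secG : GrMod A I ⥤ (Opn R)ᵒᵖ ⥤ GrMod B J := preWh (mkBi _ _ (sBi o)) (incl A I) (cor B J)

instance addSecG : (secG o).Additive where
  map_add {_ _ f g} := NatTrans.ext (funext fun T =>
    (congrArg (cor B J).map (show sMap o (f.hom + g.hom) (𝟙 T) = sMap o f.hom (𝟙 T) +
      sMap o g.hom (𝟙 T) from Pre.hom_ext fun m => LocalizedModule.induction_on (fun n s => by
        change locMap le_rfl (f.hom.1 + g.hom.1) _ = locMap le_rfl f.hom.1 _ + locMap le_rfl g.hom.1 _
        simp [locMap]) m)).trans (cor B J).map_add)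

end Sec

end Rings

section Poly

variable (K : Type) [Field K] {ι V W : Type}

abbrev acgZ (ι : Type) : AddCommGroup (ι → ℤ) := Pi.addCommGroup

abbrev decZ (ι : Type) [Fintype ι] : DecidableEq (ι → ℤ) := Fintype.decidablePiFintype

abbrev crP (V : Type) : CommRing (MvPolynomial V K) := AddMonoidAlgebra.commRing

abbrev algP (V : Type) : Algebra K (MvPolynomial V K) := AddMonoidAlgebra.algebra

attribute [local instance] acgZ decZ crP algP

/-- The multigrading of `K[x_v]` with `deg x_v = e_(blk v)`. -/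
abbrev grading [DecidableEq ι] (blk : V → ι) : (ι → ℤ) → Submodule K (MvPolynomial V K) :=
  weightedHomogeneousSubmodule K fun v => (Pi.single (blk v) 1 : ι → ℤ)

instance gaP [Fintype ι] [DecidableEq ι] (blk : V → ι) : GradedAlgebra (grading K blk) :=
  weightedGradedAlgebra K _

abbrev HI [Fintype ι] [DecidableEq ι] (blk : V → ι) := HomogeneousIdeal (grading K blk)

/-- Renaming of variables. -/
abbrev ren (f : V → W) : MvPolynomial V K →+* MvPolynomial W K := (rename f).toRingHom

/-- The homogeneous ideal generated by the images of `I` and `J`. -/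
def hull {G R S S' : Type} [AddCommGroup G] [DecidableEq G] [CommRing R] [Algebra K R]
    (A : Grd K G R) [GA A] [CommRing S] [CommRing S'] (f : S →+* R)
    (f' : S' →+* R) (I : Ideal S) (J : Ideal S') : HId A :=
  (I.map f ⊔ J.map f').homogeneousHull A

/-- `I` is prime, the rings `R / (I, y c j - 1)` are smooth and one of them has a `K`-point. -/
def SmG {R C : Type} [CommRing R] [Algebra K R] (I : Ideal R) (y : C → ι → R) : Prop :=
  I.IsPrime ∧ (∀ c, Algebra.Smooth K (R ⧸ (I ⊔ Ideal.span (Set.range fun j => y c j - 1)))) ∧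
    ∃ c, Nonempty ((R ⧸ (I ⊔ Ideal.span (Set.range fun j => y c j - 1))) →ₐ[K] K)

end Poly

attribute [local instance] acgZ decZ crP algP

/-- A closed subscheme of a product of projective spaces `∏ j, P^(n j)`: variables `V`, variable
`v` is a coordinate of the factor `blk v`, and a multihomogeneous ideal `I`. -/
structure MP (K : Type) [Field K] where
  ι : Type
  V : Type
  [fi : Fintype ι]
  [di : DecidableEq ι]
  [fv : Fintype V]
  blk : V → ι
  I : HI K blk

attribute [instance] MP.fi MP.di MP.fv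

namespace MP

variable {K : Type} [Field K] (X Y : MP K)

/-- The polynomial ring. -/
abbrev S := MvPolynomial X.V K

abbrev J := idl X.I

/-- Standard affine charts: one coordinate in each factor. -/
abbrev Chart := {c : X.ι → X.V // ∀ j, X.blk (c j) = j}

abbrev co (c : X.Chart) (j : X.ι) : X.S := MvPolynomial.X (c.1 j)

/-- The product of the coordinates that do not vanish on the chart. -/
def x (c : X.Chart) : X.S := ∏ j, X.co c j

/-- Integral and smooth, with a rational point (so geometrically integral). -/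
def SmoothVar : Prop := SmG K X.J X.co

/-- The product `X × Y`. -/
def prod : MP K where
  ι := X.ι ⊕ Y.ι
  V := X.V ⊕ Y.V
  blk := Sum.map X.blk Y.blk
  I := hull K _ (ren K Sum.inl) (ren K Sum.inr) X.J Y.J

/-- Graded modules on `X`. -/
abbrev Gr := GrMod _ X.I

instance cat : Category.{0} X.Gr := catGr

instance pre : Preadditive X.Gr := preGr

instance lin : Linear K X.Gr := linGr

instance zero : HasZeroObject X.Gr := zeroGr

instance bin : BinG X.Gr := binGr

instance prods : HasProducts.{0} X.Gr := prodGr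

instance coprods : HasCoproducts.{0} X.Gr := coprodGr

abbrev Mod := ModuleCat.{0} X.S

instance catM : Category.{0} X.Mod := ModuleCat.moduleCategory X.S

instance abM : Abelian X.Mod := ModuleCat.abelian

abbrev L : X.Gr ⥤ X.Mod := loc X.I X.x

instance addL : X.L.Additive := addLoc X.I X.x

/-- The derived category of quasi-coherent sheaves on `X`. -/
abbrev DQ := VQ X.L

instance catDQ : Category.{1} X.DQ := catD X.L

abbrev Cx := CxG X.Gr

instance catCx : Category.{0} X.Cx := catCxG X.Gr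

abbrev q : X.Cx ⥤ X.DQ := QG X.L

abbrev Sub := ObjectProperty X.DQ

/-- Admissible subcategories of `D^b(coh X)`. -/
def Admissible (P : X.Sub) : Prop := AdmG (Db X.I X.x) P

/-- The inclusion `S_X → S_(X × Y)`. -/
def inl : X.S →+* (prod X Y).S := ren K Sum.inl

/-- The inclusion `S_Y → S_(X × Y)`. -/
def inr : Y.S →+* (prod X Y).S := ren K Sum.inr

instance algInl : Algebra X.S (prod X Y).S := (inl X Y).toAlgebra

/-- The degree `(a, b)` on `X × Y`. -/
def deg (a : X.ι → ℤ) (b : Y.ι → ℤ) : (prod X Y).ι → ℤ := Sum.elim a b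

lemma rename_inr_mem {X Y : MP K} {b : Y.ι → ℤ} {r : Y.S} (hr : r ∈ grading K Y.blk b) :
    inr X Y r ∈ grading K (prod X Y).blk (deg X Y 0 b) := by
  classical
  change rename Sum.inr r ∈ _
  rw [← r.support_sum_monomial_coeff, map_sum]
  refine sum_mem fun m hm => ?_
  rw [rename_monomial]
  refine isWeightedHomogeneous_monomial _ _ _ ?_
  rw [← hr (mem_support_iff.1 hm), Finsupp.weight_apply, Finsupp.weight_apply,
    Finsupp.sum_mapDomain_index (by simp) (by simp [add_smul])]
  funext j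
  cases j <;> simp [deg, prod, Finsupp.sum, Pi.single_apply]

theorem ovr : Over (prod X Y).I (inr X Y) (deg X Y) Y.I where
  deg b _ hr := ⟨_, rename_inr_mem hr, fun a d => funext fun j => by cases j <;> simp [deg]⟩
  ideal _ hr := Ideal.le_toIdeal_homogeneousHull _ _
    (Ideal.mem_sup_right (Ideal.mem_map_of_mem _ hr))

/-- `(P, N) ↦ N ⊗ p₁^* P`. -/
def Tens : X.Gr ⥤ (prod X Y).Gr ⥤ (prod X Y).Gr :=
  tensG (prod X Y).I (fun a => deg X Y a 0) X.I

instance addT (P : X.Gr) : ((Tens X Y).obj P).Additive := addTensG ..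

instance addT' : (Tens X Y).Additive := addTensG' ..

abbrev Op := Opn X.S

instance catOp : Category.{0} X.Op := catOpn X.S

instance prodOp : HasFiniteProducts X.Op := inferInstance

/-- `N ↦ (T ↦ N[T⁻¹]_(0,*))`; for `T` generated by some `x c` this is `p₂_*` of the restriction of
`N` to `U × Y`, `U` the intersection of the charts. -/
def Sec : (prod X Y).Gr ⥤ (prod X Y).Opᵒᵖ ⥤ Y.Gr := secG (ovr X Y)

instance addS : (Sec X Y).Additive := addSecG ..

/-- The cover `U_c × Y` of `X × Y`. -/
def cover : X.Chart → (prod X Y).Op := coverG (inl X Y) X.x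

/-- `P ↦ R p₂_* (E ⊗ p₁^* P)` on complexes. -/
def Phi (E : (prod X Y).Cx) : X.Cx ⥤ Y.Cx := PhiG (Sec X Y) (cover X Y) (Tens X Y) E

/-- Bounded complexes of flat sheaves. -/
def Flat : X.Cx → Prop := FlatCx X.I X.x

variable {X Y}

/-- `P`, `P'` are triangulated and there is a `K`-linear exact equivalence between them. -/
def Equivalent (P : X.Sub) (P' : Y.Sub) : Prop := TriEqD X.L Y.L K P P'

/-- `F : P ⥤ P'` is of Fourier-Mukai type: for some complex `E` on `X × Y`,
`F(Z) ≅ R p₂_* (E ⊗ p₁^* Z)` naturally in bounded flat complexes `Z` lying in `P`. -/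
def FourierMukai {P : X.Sub} {P' : Y.Sub} (F : P.FullSubcategory ⥤ P'.FullSubcategory) : Prop :=
  ∃ E, Agree X.q Y.q X.Flat (Phi X Y E) F

end MP

end FMD
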